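import Pool.Agent.Q317.ST.Perm3
import Pool.Agent.Q317.ST.Pad

/-!
# Critical values over number fields and real places

`Ω` is an algebraic closure of `ℚ`, number fields are the finite extensions of `ℚ` in `Ω`. Let `M`
be a motive over a number field `k` with coefficients in the number field `E`. For `K ⊇ k` let
`L K` be the critical value of the `L`-function of `M` over `K` and `c K` the period (with the power
of `2πi`), families of nonzero complex numbers indexed by the embeddings of `E`.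
-/

set_option autoImplicit false

namespace Pool.Agent.Results.MP_100fe7_nt.CriticalValuesAndRealPlaces

open IntermediateField Pool.Agent.Q317.ST Pool.Agent.Q317.ST.Perm

attribute [-instance] DivisionRing.toRatAlgebra

variable {Ω : Type} [Field Ω] [Algebra ℚ Ω]

/-- `F` is a number field containing `k` that has no embedding in `ℝ` and, for the primes `p ≤ n`,
no embedding in `ℚ_p`. -/
def NoSmallPlaces (k : IntermediateField ℚ Ω) (n : ℕ) (F : IntermediateField ℚ Ω) : Prop :=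
  FiniteDimensional ℚ F ∧ k ≤ F ∧ IsEmpty (F →+* ℝ) ∧
    ∀ (p : ℕ) [Fact p.Prime], p ≤ n → IsEmpty (F →+* ℚ_[p])

/-- `(E ⊗ ℂ)ˣ` -/
abbrev Val (E : Type) [Field E] : Type := (E →+* ℂ) → ℂˣ

/-- the embedding of `Eˣ` in `(E ⊗ ℂ)ˣ` -/
def diag (E : Type) [Field E] : Eˣ →* Val E where
  toFun e τ := Units.map (τ : E →* ℂ) e
  map_one' := by
    funext τ
    exact map_one _
  map_mul' e e' := by
    funext τ
    exact map_mul _ _ _

/-- the elements of `(E ⊗ ℂ)ˣ` that have a power in `Eˣ` -/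
def radical (E : Type) [Field E] : Subgroup (Val E) where
  carrier := {x | ∃ D : ℕ, D ≠ 0 ∧ ∃ e : Eˣ, x ^ D = diag E e}
  one_mem' := ⟨1, one_ne_zero, 1, by rw [one_pow, map_one]⟩
  mul_mem' := by
    rintro x y ⟨D, hD, e, he⟩ ⟨D', hD', e', he'⟩
    refine ⟨D * D', mul_ne_zero hD hD', e ^ D' * e' ^ D, ?_⟩
    rw [mul_pow, pow_mul, he, mul_comm D D', pow_mul y, he', map_mul, map_pow, map_pow]
  inv_mem' := by
    rintro x ⟨D, hD, e, he⟩
    exact ⟨D, hD, e⁻¹, by rw [inv_pow, he, map_inv]⟩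

/-- `g`, a function on the finite extensions `K` of `k`, respects the relations between permutation
characters up to the subgroup `H`: if `∑ n_i π_i = 0` on the absolute Galois group of `k`, where
`π_i (σ)` is the number of the `k`-embeddings of `K_i` fixed by `σ`, then `∏ g (K_i) ^ n_i ∈ H`. -/
def RespectsModulo {U : Type} [CommGroup U] (k : IntermediateField ℚ Ω) (H : Subgroup U)
    (g : IntermediateField ℚ Ω → U) : Prop :=
  ∀ (ι : Type) [Fintype ι] (n : ι → ℤ) (K : ι → IntermediateField ℚ Ω),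
    (∀ i, FiniteDimensional ℚ (K i) ∧ k ≤ K i) →
    (∀ σ ∈ k.fixingSubgroup, ∑ i, n i * (fix k (K i) σ : ℤ) = 0) → ∏ i, g (K i) ^ n i ∈ H

/-- Deligne's relation up to a root: a power of `x / y` lies in `Eˣ`. -/
def UpToRoot {E : Type} [Field E] (x y : Val E) : Prop :=
  ∃ D : ℕ, D ≠ 0 ∧ ∃ e : Eˣ, ∀ τ : E →+* ℂ, (x τ : ℂ) ^ D = τ e * (y τ : ℂ) ^ D

theorem upToRoot_iff {E : Type} [Field E] {x y : Val E} :
    UpToRoot x y ↔ x / y ∈ radical E := by
  constructor
  · rintro ⟨D, hD, e, he⟩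
    refine ⟨D, hD, e, ?_⟩
    funext τ
    apply Units.ext
    rw [div_pow, Pi.div_apply, Pi.pow_apply, Pi.pow_apply, Units.val_div_eq_div_val,
      Units.val_pow_eq_pow_val, Units.val_pow_eq_pow_val, he τ]
    change _ = τ e
    rw [mul_div_assoc, div_self (pow_ne_zero D (y τ).ne_zero), mul_one]
  · rintro ⟨D, hD, e, he⟩
    refine ⟨D, hD, e, fun τ => ?_⟩
    have h1 := congrArg (fun t : ℂˣ => (t : ℂ)) (congrFun he τ)
    change (((x / y) τ ^ D : ℂˣ) : ℂ) = τ e at h1
    rw [Units.val_pow_eq_pow_val, Pi.div_apply, Units.val_div_eq_div_val, div_pow,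
      div_eq_iff (pow_ne_zero D (y τ).ne_zero)] at h1
    exact h1

theorem radical_closed {E : Type} [Field E] {x : Val E} {D : ℕ} (hD : D ≠ 0)
    (h : x ^ D ∈ radical E) : x ∈ radical E := by
  obtain ⟨D', hD', e, he⟩ := h
  exact ⟨D * D', mul_ne_zero hD hD', e, by rw [pow_mul, he]⟩

theorem realOver_unique {k K : IntermediateField ℚ Ω} (hkK : k ≤ K) {v : k →+* ℝ}
    (hv : ∀ w : k →+* ℝ, w = v) : realOver k K v = Nat.card (K →+* ℝ) := by
  unfold realOver
  refine Nat.card_congr (Equiv.subtypeUnivEquiv fun ρ x hx => ?_)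
  exact congrArg (fun t : k →+* ℝ => t ⟨x, hx⟩) (hv (ρ.comp (inclusion hkK).toRingHom))

theorem realOver_empty {k K : IntermediateField ℚ Ω} (h : IsEmpty (K →+* ℝ)) (v : k →+* ℝ) :
    realOver k K v = 0 := by
  unfold realOver
  have : IsEmpty {ρ : K →+* ℝ // ∀ (x : K) (hx : (x : Ω) ∈ k), ρ x = v ⟨x, hx⟩} :=
    ⟨fun ρ => h.false ρ.1⟩
  exact Nat.card_of_isEmpty

theorem result (Ω : Type) [Field Ω] [Algebra ℚ Ω] [IsAlgClosure ℚ Ω] (k : IntermediateField ℚ Ω)
    [FiniteDimensional ℚ k] (E : Type) [Field E] [NumberField E]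
    (L c : IntermediateField ℚ Ω → Val E) (hL : RespectsModulo k ⊥ L)
    (hc : RespectsModulo k (diag E).range c) (n : ℕ)
    (h : ∀ F, NoSmallPlaces k n F → UpToRoot (L F) (c F)) :
    (∀ (ι : Type) [Fintype ι] (m : ι → ℤ) (K : ι → IntermediateField ℚ Ω),
      (∀ i, FiniteDimensional ℚ (K i) ∧ k ≤ K i) →
      (∀ v : k →+* ℝ, ∑ i, m i * (realOver k (K i) v : ℤ) = 0) →
      UpToRoot (∏ i, L (K i) ^ m i) (∏ i, c (K i) ^ m i)) ∧
    (∀ K : IntermediateField ℚ Ω, FiniteDimensional ℚ K → k ≤ K → IsEmpty (K →+* ℝ) →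
      UpToRoot (L K) (c K)) ∧
    (Nat.card (k →+* ℝ) = 1 → ∀ K : IntermediateField ℚ Ω, FiniteDimensional ℚ K → k ≤ K →
      UpToRoot (L K * c k ^ Nat.card (K →+* ℝ)) (c K * L k ^ Nat.card (K →+* ℝ))) ∧
    (Nat.card (k →+* ℝ) = 1 → ∀ K₀ : IntermediateField ℚ Ω, FiniteDimensional ℚ K₀ → k ≤ K₀ →
      Nonempty (K₀ →+* ℝ) → UpToRoot (L K₀) (c K₀) →
      ∀ K : IntermediateField ℚ Ω, FiniteDimensional ℚ K → k ≤ K → UpToRoot (L K) (c K)) := by
  let J := {p : Fin (n + 1) // (p : ℕ).Prime}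
  have i0 : ∀ j : J, Fact ((j.1 : ℕ).Prime) := fun j => ⟨j.2⟩
  let Q : J → Type := fun j => ℚ_[(j.1 : ℕ)]
  have hE : ∀ j : J, CharZero (Q j) := fun j => inferInstance
  have hnE : ∀ j : J, StarkNumbers.NonSq (Q j) := fun j => exists_nonsq _
  let f : IntermediateField ℚ Ω → Additive (Val E ⧸ radical E) := fun K =>
    Additive.ofMul (QuotientGroup.mk (L K / c K))
  have hsum : ∀ (ι : Type) [Fintype ι] (m : ι → ℤ) (K : ι → IntermediateField ℚ Ω),
      ∑ i, m i • f (K i) = Additive.ofMul (QuotientGroup.mk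
        ((∏ i, L (K i) ^ m i) / (∏ i, c (K i) ^ m i))) := by
    intro ι _ m K
    rw [← Finset.prod_div_distrib]
    have h1 : (QuotientGroup.mk (∏ i, L (K i) ^ m i / c (K i) ^ m i) : Val E ⧸ radical E) =
        ∏ i, (QuotientGroup.mk (L (K i) / c (K i)) : Val E ⧸ radical E) ^ m i := by
      rw [← QuotientGroup.mk'_apply (radical E), map_prod]
      refine Finset.prod_congr rfl fun i _ => ?_
      exact (congrArg (QuotientGroup.mk' (radical E)) (div_zpow _ _ _).symm).trans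
        (map_zpow (QuotientGroup.mk' (radical E)) _ _)
    rw [h1, ofMul_prod]
    rfl
  have hzero : ∀ x : Val E, (Additive.ofMul (QuotientGroup.mk x) :
      Additive (Val E ⧸ radical E)) = 0 ↔ x ∈ radical E := fun x => by
    rw [ofMul_eq_zero, QuotientGroup.eq_one_iff]
  have hf : Respects k f := by
    intro ι _ m K hK hrel
    rw [hsum, hzero]
    have h1 := hL ι m K hK hrel
    rw [Subgroup.mem_bot] at h1
    rw [h1, one_div]
    refine (radical E).inv_mem ?_
    obtain ⟨e, he⟩ := hc ι m K hK hrel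
    exact ⟨1, one_ne_zero, e, by rw [pow_one, he]⟩
  have h0 : ∀ F : IntermediateField ℚ Ω, FiniteDimensional ℚ F → k ≤ F → IsEmpty (F →+* ℝ) →
      (∀ j, IsEmpty (F →+* Q j)) → f F = 0 := by
    intro F hF hkF hR hj
    refine (hzero _).2 (upToRoot_iff.1 (h F ⟨hF, hkF, hR, ?_⟩))
    intro p hp hpn
    exact hj ⟨⟨p, by omega⟩, hp.out⟩
  have key : ∀ (ι : Type) [Fintype ι] (m : ι → ℤ) (K : ι → IntermediateField ℚ Ω),
      (∀ i, FiniteDimensional ℚ (K i) ∧ k ≤ K i) →
      (∀ v : k →+* ℝ, ∑ i, m i * (realOver k (K i) v : ℤ) = 0) →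
      UpToRoot (∏ i, L (K i) ^ m i) (∏ i, c (K i) ^ m i) := by
    intro ι _ m K hK hr
    obtain ⟨D, hD, h1⟩ := main_real hf Q hE hnE h0 ι m K hK hr
    rw [hsum] at h1
    rw [upToRoot_iff]
    refine radical_closed hD ((hzero _).1 ?_)
    exact h1
  have pair : ∀ K K' : IntermediateField ℚ Ω, FiniteDimensional ℚ K → k ≤ K →
      FiniteDimensional ℚ K' → k ≤ K' → ∀ a b : ℤ,
      (∀ v : k →+* ℝ, a * (realOver k K v : ℤ) + b * (realOver k K' v : ℤ) = 0) →
      (L K / c K) ^ a * (L K' / c K') ^ b ∈ radical E := by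
    intro K K' hK hk hK' hk' a b hr
    have h1 := key Bool (fun t => cond t a b) (fun t => cond t K K') (fun t => by
        cases t
        · exact ⟨hK', hk'⟩
        · exact ⟨hK, hk⟩) (fun w => by
        rw [Fintype.sum_bool]
        exact hr w)
    rw [Fintype.prod_bool, Fintype.prod_bool, upToRoot_iff] at h1
    have h2 : (L K / c K) ^ a * (L K' / c K') ^ b =
        L K ^ a * L K' ^ b / (c K ^ a * c K' ^ b) := by
      rw [div_zpow, div_zpow]
      simp only [div_eq_mul_inv, mul_inv]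
      ac_rfl
    rw [h2]
    exact h1
  refine ⟨key, ?_, ?_, ?_⟩
  · intro K hK hk hR
    have h1 := key Unit (fun _ => 1) (fun _ => K) (fun _ => ⟨hK, hk⟩) (fun v => by
      simp [realOver_empty hR v])
    simpa using h1
  · intro hcard K hK hk
    obtain ⟨hsub, ⟨v⟩⟩ := Nat.card_eq_one_iff_unique.1 hcard
    have hv : ∀ w : k →+* ℝ, w = v := fun w => Subsingleton.elim w v
    have h1 := pair K k hK hk inferInstance le_rfl 1 (-(Nat.card (K →+* ℝ) : ℤ)) (fun w => by
      rw [hv w, realOver_unique hk hv, realOver_unique le_rfl hv, hcard]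
      ring)
    rw [upToRoot_iff]
    have h2 : L K * c k ^ Nat.card (K →+* ℝ) / (c K * L k ^ Nat.card (K →+* ℝ)) =
        (L K / c K) ^ (1 : ℤ) * (L k / c k) ^ (-(Nat.card (K →+* ℝ) : ℤ)) := by
      rw [zpow_one, zpow_neg, zpow_natCast, div_pow]
      simp only [div_eq_mul_inv, mul_inv, inv_inv]
      ac_rfl
    rw [h2]
    exact h1
  · intro hcard K₀ hK₀ hk₀ hne h₀ K hK hk
    obtain ⟨hsub, ⟨v⟩⟩ := Nat.card_eq_one_iff_unique.1 hcard
    have hv : ∀ w : k →+* ℝ, w = v := fun w => Subsingleton.elim w v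
    have h1 := pair K K₀ hK hk hK₀ hk₀ (Nat.card (K₀ →+* ℝ) : ℤ) (-(Nat.card (K →+* ℝ) : ℤ))
      (fun w => by
        rw [hv w, realOver_unique hk hv, realOver_unique hk₀ hv]
        ring)
    rw [upToRoot_iff] at h₀ ⊢
    have h2 := (radical E).mul_mem h1 ((radical E).zpow_mem h₀ (Nat.card (K →+* ℝ) : ℤ))
    rw [mul_assoc, ← zpow_add, neg_add_cancel, zpow_zero, mul_one, zpow_natCast] at h2
    have := finite_real K₀
    exact radical_closed (Nat.card_pos.ne') h2

end Pool.Agent.Results.MP_100fe7_nt.CriticalValuesAndRealPlaces
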