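import Pool.Agent.Q193.LT.Crit

/-!
# Critical values of motivic `L`-functions and the cubic hypersurfaces `T(x, y, z) = 1`

Let `E` be a number field and `M` the category of motives over `ℚ` for absolute Hodge cycles with
coefficients in `E`, a semisimple abelian category with Tate twists `N ↦ N(a)`. For a separated
`ℚ`-scheme `X` of finite type let `D.H i X` be the object of `M` given by the graded object of the
weight filtration of the cohomology with compact supports `H^i_c(X)`, with coefficients extended to
`E`; for smooth projective `X` it is the motive `h^i(X) ⊗ E`.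

For a motive `N` let `C.crit N` say that `N` is pure without classes of type `(w/2, w/2)` and that `0` is
critical for `N`, let `C.L N = L(0, N)` be the value of its `L`-function and `C.c N` Deligne's period
`c⁺(N)`, computed in some `E`-bases; both are elements of `E ⊗ ℂ`. An integer `m` is critical for a
motive `N` if and only if `0` is critical for `N(m)`, and then `L(m, N) = L(0, N(m))` and
`c⁺(N(m)) = (2πi)^{m n^ε} c^ε(N)` up to a factor in `Eˣ`; so the conjecture of question Q1 for `N`
and `m` is the property `Deligne E C (N(m))`: `L(0, N(m)) = e c⁺(N(m))` for some `e ∈ E`.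
`Facts D (Deligne E C) N` says that this is true for all direct factors of all Tate twists of `N`. As a
motive is a direct sum of direct factors of Tate twists of motives `h^i(Y) ⊗ E`, the conjecture says that
`Facts D (Deligne E C) (D.H i Y)` is true for all smooth projective `Y` over `ℚ` and all `i`.

For a trilinear form `T(x, y, z) = ∑ t_{ijk} x_i y_j z_k` with rational coefficients, in any numbers of
variables, the affine cubic hypersurface `T(x, y, z) = 1` is smooth over `ℚ`.

**Theorem.** (1) Deligne's conjecture is true for all motives with coefficients in `E` if and only if it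
is true for the critical direct factors of the Tate twists of the motives `Gr^W H^i_c(T = 1) ⊗ E`, for
all trilinear forms `T` over `ℚ`.

(2) For all `n`, it is true for the critical direct factors of the Tate twists of the motives
`h^i(Y) ⊗ E` of all smooth projective varieties `Y` of dimension at most `n` over `ℚ` if and only if it
is true for those of `Gr^W H^i_c(T = 1) ⊗ E` for all trilinear forms `T` over `ℚ` such that one of the
three blocks of variables has at most `n + 2` variables (the other two blocks are arbitrary).

(3) Unconditionally, it is true for the critical direct factors of the Tate twists of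
`Gr^W H^i_c(T = 1) ⊗ E` if one of the three blocks of variables of `T` has at most two variables.
-/

set_option autoImplicit false

open CategoryTheory CategoryTheory.Limits AlgebraicGeometry Pool.Agent.Y116.UV Pool.Agent.Z125.UN
  Pool.Agent.Q193.LT
open scoped TensorProduct

universe v u

namespace Pool.Agent.Results.MP_100fe7_nt.CubicHypersurfaces

/-- **Critical values and cubic hypersurfaces.** See the explanations above. Known cases that are used:
Tate motives (`point`, Euler) and Artin motives (the premise of the last clause, Siegel, Klingen, Deligne), that is the motives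
of smooth projective varieties of dimension zero. -/
theorem result {E : Type} [Field E] [NumberField E] {M : Type u} [Category.{v} M] [Abelian M]
    {D : CompactData ℚ M} (h : IsMotives D) {C : CritData M (E ⊗[ℚ] ℂ)} (hC : IsCrit E C)
    (point : ∀ i, Facts D (Deligne E C) (D.H i (aff ℚ ℚ))) :
    ((∀ Y : Sch ℚ, SmoothProj Y → ∀ i, Facts D (Deligne E C) (D.H i Y)) ↔
      ∀ (a b c : ℕ) (T : Fin a → Fin b → Fin c → ℚ), ∀ i,
        Facts D (Deligne E C) (D.H i (hypS T))) ∧
    (∀ n : ℕ, (∀ Y : Sch ℚ, SmoothProj Y → topologicalKrullDim Y.left ≤ n →
        ∀ i, Facts D (Deligne E C) (D.H i Y)) ↔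
      ∀ (a b c : ℕ) (T : Fin a → Fin b → Fin c → ℚ), (a ≤ n + 2 ∨ b ≤ n + 2 ∨ c ≤ n + 2) →
        ∀ i, Facts D (Deligne E C) (D.H i (hypS T))) ∧
    ((∀ Y : Sch ℚ, SmoothProj Y → topologicalKrullDim Y.left ≤ (0 : ℕ) →
        ∀ i, Facts D (Deligne E C) (D.H i Y)) →
      ∀ (a b c : ℕ) (T : Fin a → Fin b → Fin c → ℚ), (a ≤ 2 ∨ b ≤ 2 ∨ c ≤ 2) →
        ∀ i, Facts D (Deligne E C) (D.H i (hypS T))) := by
  have hS : IsTateSerre D (Facts D (Deligne E C)) := deligne_serre h.compact h.semisimple hC
  exact ⟨proj_all_iff h.compact h.generated hS point,
    fun n => proj_iff h.compact h.generated hS point n,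
    (proj_iff h.compact h.generated hS point 0).mp⟩

end Pool.Agent.Results.MP_100fe7_nt.CubicHypersurfaces
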