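import Pool.Agent.Q5.DL.Main
import Pool.Agent.Q317.ST.Emb2

/-!
# Deligne's conjecture: exact reduction to base fields with few embeddings in `ℝ` and `ℚ_p`

`Ω` is an algebraic closure of `ℚ`, and number fields are the finite extensions of `ℚ` in `Ω`.
-/

set_option autoImplicit false

namespace Pool.Agent.Results.MP_100fe7_nt.ExactReduction

open IntermediateField Pool.Agent.Q317.ST Pool.Agent.Q5.DL

attribute [-instance] DivisionRing.toRatAlgebra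

/-- The number field `K` has at most `ε [K : ℚ]` embeddings in `ℝ`, and at most `ε [K : ℚ]`
embeddings in `ℚ_p` for each prime `p ≤ n`. -/
def FewEmbeddings {Ω : Type} [Field Ω] [Algebra ℚ Ω] (ε : ℝ) (n : ℕ)
    (K : IntermediateField ℚ Ω) : Prop :=
  FiniteDimensional ℚ K ∧ (Nat.card (K →+* ℝ) : ℝ) ≤ ε * Module.finrank ℚ K ∧
    ∀ (p : ℕ) [Fact p.Prime], p ≤ n → (Nat.card (K →+* ℚ_[p]) : ℝ) ≤ ε * Module.finrank ℚ K

/-- fields with few embeddings above a given field -/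
theorem exists_fields {Ω : Type} [Field Ω] [Algebra ℚ Ω] [IsAlgClosure ℚ Ω] (ε : ℝ) (n : ℕ)
    (hε : 0 < ε) (K : IntermediateField ℚ Ω) (hK : FiniteDimensional ℚ K) :
    ∃ (ℓ : ℕ) (_ : Fact ℓ.Prime) (ζ α : Ω), IsPrimitiveRoot ζ ℓ ∧ α ^ ℓ ∈ K ∧
      (∀ b ∈ K, b ^ ℓ ≠ α ^ ℓ) ∧ FewEmbeddings ε n (K ⊔ ℚ⟮α⟯) ∧ FewEmbeddings ε n (K ⊔ ℚ⟮ζ⟯) := by
  obtain ⟨ℓ, hle, hℓ⟩ := Nat.exists_infinite_primes (n + Module.finrank ℚ K + ⌈1 / ε⌉₊ + 3)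
  have hKℓ : Module.finrank ℚ K < ℓ := by omega
  have : Fact ℓ.Prime := ⟨hℓ⟩
  have hodd : Odd ℓ := hℓ.odd_of_ne_two (by omega)
  have hcl : IsAlgClosed Ω := (inferInstance : IsAlgClosure ℚ Ω).isAlgClosed
  have hch : CharZero Ω := charZero_of_injective_algebraMap (algebraMap ℚ Ω).injective
  have : NeZero ℓ := ⟨hℓ.ne_zero⟩
  obtain ⟨ζ, hζ⟩ := HasEnoughRootsOfUnity.exists_primitiveRoot Ω ℓ
  obtain ⟨α, hα⟩ := IsAlgClosed.exists_pow_nat_eq (algebraMap ℚ Ω 2) hℓ.pos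
  have ha : ∀ b : ℚ, b ^ ℓ ≠ 2 := by
    intro b hb
    have h1 : padicValRat 2 (b ^ ℓ) = 1 := by
      rw [hb]
      have := padicValRat.self (p := 2) (by norm_num)
      exact_mod_cast this
    rw [padicValRat.pow] at h1
    have h2 : (ℓ : ℤ) ∣ 1 := ⟨_, h1.symm⟩
    have h3 : ℓ ∣ 1 := by exact_mod_cast h2
    exact hℓ.one_lt.ne' (Nat.dvd_one.1 h3)
  have hAlg := (inferInstance : IsAlgClosure ℚ Ω).isAlgebraic
  have i1 : FiniteDimensional ℚ ℚ⟮α⟯ :=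
    adjoin.finiteDimensional (hAlg.isAlgebraic α).isIntegral
  have i2 : FiniteDimensional ℚ ℚ⟮ζ⟯ :=
    adjoin.finiteDimensional (hAlg.isAlgebraic ζ).isIntegral
  have hεℓ : 1 ≤ ε * ℓ := by
    have h1 : 1 / ε ≤ ℓ := (Nat.le_ceil _).trans (by exact_mod_cast (by omega :
      ⌈1 / ε⌉₊ ≤ ℓ))
    rwa [div_le_iff₀ hε, mul_comm] at h1
  have hbig := mul_finrank_le (K := K) hℓ hKℓ hα ha
  have hcard : ∀ (F : Type) [Field F], OnlyOne F ℓ →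
      (Nat.card (↥(K ⊔ ℚ⟮α⟯) →+* F) : ℝ) ≤ ε * Module.finrank ℚ ↥(K ⊔ ℚ⟮α⟯) := by
    intro F _ hF
    have h1 : (Nat.card (↥(K ⊔ ℚ⟮α⟯) →+* F) : ℝ) ≤ Module.finrank ℚ K := by
      exact_mod_cast card_hom_le hF two_ne_zero hα
    have h2 : (ℓ : ℝ) * Module.finrank ℚ K ≤ Module.finrank ℚ ↥(K ⊔ ℚ⟮α⟯) := by
      exact_mod_cast hbig
    have h3 : (0 : ℝ) ≤ Module.finrank ℚ K := Nat.cast_nonneg _
    nlinarith
  have hcard2 : ∀ (F : Type) [Field F], OnlyOne F ℓ →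
      (Nat.card (↥(K ⊔ ℚ⟮ζ⟯) →+* F) : ℝ) ≤ ε * Module.finrank ℚ ↥(K ⊔ ℚ⟮ζ⟯) := by
    intro F _ hF
    rw [card_hom_zeta hF hℓ.one_lt hζ, Nat.cast_zero]
    positivity
  refine ⟨ℓ, ⟨hℓ⟩, ζ, α, hζ, ?_, ?_, ?_, ?_⟩
  · rw [hα]
    exact K.algebraMap_mem 2
  · rw [hα]
    exact not_pow_of_finrank hℓ hKℓ ha
  · refine ⟨inferInstance, hcard _ (onlyOne_real hodd), ?_⟩
    intro p hp hpn
    exact hcard _ (onlyOne_padic hℓ (by omega))
  · refine ⟨inferInstance, hcard2 _ (onlyOne_real hodd), ?_⟩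
    intro p hp hpn
    exact hcard2 _ (onlyOne_padic hℓ (by omega))

theorem result (Ω : Type) [Field Ω] [Algebra ℚ Ω] [IsAlgClosure ℚ Ω] (M : Twists Ω) :
    (∀ (K : IntermediateField ℚ Ω) (ℓ : ℕ) (ζ α : Ω), ℓ.Prime → IsPrimitiveRoot ζ ℓ → α ^ ℓ ∈ K →
      (∀ b ∈ K, b ^ ℓ ≠ α ^ ℓ) →
        (M.AllFor (K ⊔ ℚ⟮ζ⟯) → M.AllFor (K ⊔ ℚ⟮α⟯) → M.AllFor K) ∧
        (M.AbelianFor (K ⊔ ℚ⟮ζ⟯) → M.AbelianFor (K ⊔ ℚ⟮α⟯) → M.AbelianFor K)) ∧
    (∀ (ε : ℝ) (n : ℕ), 0 < ε →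
      ((∀ K : IntermediateField ℚ Ω, FewEmbeddings ε n K → M.AllFor K) →
        ∀ K : IntermediateField ℚ Ω, M.AllFor K) ∧
      ((∀ K : IntermediateField ℚ Ω, FewEmbeddings ε n K → M.AbelianFor K) →
        ∀ K : IntermediateField ℚ Ω, M.AbelianFor K)) := by
  constructor
  · intro K ℓ ζ α hℓ hζ hα hn
    have : Fact ℓ.Prime := ⟨hℓ⟩
    exact ⟨fun h1 h2 => Twists.AllFor.descent hζ hα hn h2 h1,
      fun h1 h2 => Twists.AbelianFor.descent hζ hα hn h2 h1⟩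
  · intro ε n hε
    constructor
    · intro h K χ hχ
      have hL : FiniteDimensional ℚ hχ.choose := hχ.choose_spec.1
      have hK : FiniteDimensional ℚ K := FiniteDimensional.of_injective
        (inclusion hχ.choose_spec.2.1).toLinearMap (inclusion_injective hχ.choose_spec.2.1)
      obtain ⟨ℓ, hℓ, ζ, α, h1, h2, h3, h4, h5⟩ := exists_fields ε n hε K hK
      exact Twists.AllFor.descent h1 h2 h3 (h _ h4) (h _ h5) χ hχ
    · intro h K χ hχ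
      have hL : FiniteDimensional ℚ hχ.choose := hχ.choose_spec.1.1
      have hK : FiniteDimensional ℚ K := FiniteDimensional.of_injective
        (inclusion hχ.choose_spec.1.2.1).toLinearMap (inclusion_injective hχ.choose_spec.1.2.1)
      obtain ⟨ℓ, hℓ, ζ, α, h1, h2, h3, h4, h5⟩ := exists_fields ε n hε K hK
      exact Twists.AbelianFor.descent h1 h2 h3 (h _ h4) (h _ h5) χ hχ

end Pool.Agent.Results.MP_100fe7_nt.ExactReduction
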