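import Pool.Agent.Q49.WU.Facts

/-!
# Critical values of motives, weight by weight

Let `E` be a number field and `M` the category of motives over `ℚ` for absolute Hodge cycles with
coefficients in `E`, a semisimple abelian category with Tate twists `N ↦ N(a)`. Fix an integer `w ≥ 0`. For
a separated `ℚ`-scheme `X` of finite type and integers `N`, `n` let
`D.H N n X = Gr^W_{w+2N} H^n_c(X) ⊗ E`, the part of weight `w + 2N` of the cohomology with compact
supports. For smooth projective `X` it is the motive `h^n(X) ⊗ E` if `n = w + 2N` and zero otherwise.

For a motive `N` let `C.crit N` say that `N` is pure without classes of type `(w/2, w/2)` and that `0` is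
critical for `N`, let `C.L N = L(0, N)` and let `C.c N` be Deligne's period `c⁺(N)`, computed in some
`E`-bases; both are elements of `E ⊗ ℂ`. An integer `m` is critical for `N` if and only if `0` is
critical for `N(m)`, and then `L(m, N) = L(0, N(m))` and `c⁺(N(m)) = (2πi)^{m n^ε} c^ε(N)` up to a
factor in `Eˣ`; so the conjecture of question Q1 for `N` and `m` is `Deligne E C (N(m))`.
`Holds E D C N X` says that it is true for all direct factors of all Tate twists of the objects
`D.H N n X`, `n ∈ ℤ`.

For smooth projective `Y` the statement `Holds E D C 0 Y` is Deligne's conjecture for all direct factors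
of the motive `h^w(Y) ⊗ E` and all critical integers. For `w = 0` this is the case of Artin motives
(known: Siegel, Klingen, Deligne), for `w = 1` the case of abelian varieties over `ℚ` with coefficients
in `E`, for `w = 2` the case of the motives `h^2` of surfaces, and Deligne's conjecture for all motives
is the statement for all `w`.

**Theorem.** Let `w ≥ 0`. The following are equivalent:

* Deligne's conjecture is true for all direct factors of `h^w(Y) ⊗ E` and all critical integers, for all
  smooth projective varieties `Y` over `ℚ`;
* it is true for all direct factors of the motives `Gr^W_{w+2(a-1)} H^n_c(X_H) ⊗ E` (`n ∈ ℤ`) and all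
  critical integers, for the smooth affine cubic hypersurfaces
  `X_H : ∑_{(i, j, l) ∈ H} x_i y_j z_l = 1` of all finite sets `H` of triples, where `a` is the number of
  the variables `x_i` (of the indices `i` in the triples);
* it is true for all direct factors of the motives `Gr^W_{w+2(a-1)} H^n_c(T = 1) ⊗ E` and all critical
  integers, for the hypersurfaces `T(x, y, z) = 1` of all trilinear forms `T` with rational coefficients
  in `a` variables `x_i` and any numbers of variables `y_j`, `z_l`.

So for each weight of smooth projective varieties only one weight of the hypersurfaces is needed.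
-/

set_option autoImplicit false

open CategoryTheory CategoryTheory.Limits AlgebraicGeometry Pool.Agent.Y116.UV Pool.Agent.Z125.UN
  Pool.Agent.Q193.LT Pool.Agent.Q49.WU
open scoped TensorProduct

universe v u

namespace Pool.Agent.Results.MP_100fe7_nt.WeightByWeight

/-- Deligne's conjecture for all direct factors of the Tate twists of the parts of weight `w + 2N` of the
cohomology with compact supports of `X`. -/
def Holds (E : Type) [Field E] [NumberField E] {M : Type u} [Category.{v} M] [Abelian M]
    (D : WeightData ℚ M) (C : CritData M (E ⊗[ℚ] ℂ)) (N : ℤ) (X : Sch ℚ) : Prop :=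
  InAt D (TwFacts D (Deligne E C)) N X

/-- **Critical values of motives, weight by weight.** See the explanations above; `point` is the case of
the Tate motives. -/
theorem result {E : Type} [Field E] [NumberField E] {M : Type u} [Category.{v} M] [Abelian M]
    {D : WeightData ℚ M} (h : IsWMotives D) {C : CritData M (E ⊗[ℚ] ℂ)} (hC : IsCrit E C)
    (point : ∀ N, Holds E D C N (aff ℚ ℚ)) :
    ((∀ Y : Sch ℚ, SmoothProj Y → Holds E D C 0 Y) ↔
      ∀ (a b c : ℕ) (H : Finset (Fin a × Fin b × Fin c)), Holds E D C (a - 1) (tripS ℚ H)) ∧
    ((∀ Y : Sch ℚ, SmoothProj Y → Holds E D C 0 Y) ↔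
      ∀ (a b c : ℕ) (T : Fin a → Fin b → Fin c → ℚ), Holds E D C (a - 1) (hypS T)) := by
  have hS := deligne_twSerre (D := D) h.weight h.semisimple hC
  have h1 := sp_weight_graph h.weight h.generated hS point frac_rat 0
  have h2 := sp_weight_iff h.weight h.generated hS point 0
  simp only [zero_add] at h1 h2
  exact ⟨h1, h2⟩

end Pool.Agent.Results.MP_100fe7_nt.WeightByWeight
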